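import Pool.Agent.H26.BL.Hub

/-!
The Birkhoff-Lewis inequality, at all real `q ≥ 9/2`, for plane graphs which become bipartite when
three consecutive vertices of the convex hull of the drawing are deleted, and when moreover an
independent set of vertices is deleted whose neighbours form closed walks of length four.

Idea of the proof. The drawing is swept by rays from the middle one `u` of the three vertices,
starting at the vertex `z` and ending at the vertex `w`. The state of the sweep is a vector of the
Potts model in which the colours of the three special vertices are fixed; the relevant space is a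
representation of the Temperley-Lieb algebra with a path basis, in which all the letters of the
sweep act by matrices whose signs are governed by the bipartition. This needs a positive solution
of an eigenvalue equation, which exists for `q ≥ 9/2`.
-/

set_option autoImplicit false

namespace Pool.Agent.Results.MP_0d034c_co.ThreeHullVertices

open Polynomial

/-- `f` is a drawing of `G` in the plane with straight non-crossing edges: vertices are distinct
points, no vertex lies in the interior of an edge, and the interiors of different edges are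
disjoint. -/
def StraightDrawing {V : Type} (G : SimpleGraph V) (f : V → ℝ × ℝ) : Prop :=
  Function.Injective f ∧
  (∀ u v w : V, G.Adj u v → f w ∉ openSegment ℝ (f u) (f v)) ∧
  (∀ u v u' v' : V, G.Adj u v → G.Adj u' v' → s(u, v) ≠ s(u', v') →
    Disjoint (openSegment ℝ (f u) (f v)) (openSegment ℝ (f u') (f v')))

/-- Twice the signed area of the triangle `a b c`; it is positive exactly when `c` lies strictly
to the left of the line from `a` to `b`. -/
def orient (a b c : ℝ × ℝ) : ℝ := (b.1 - a.1) * (c.2 - a.2) - (b.2 - a.2) * (c.1 - a.1)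

/-- All the vertices other than `u` and `z` lie strictly to the left of the line from `u` to `z`,
and all the vertices other than `u` and `w` strictly to the right of the line from `u` to `w`. So
`w`, `u`, `z` are consecutive corners of the convex hull of the drawing, in counterclockwise
order. -/
def HullTriple {V : Type} (f : V → ℝ × ℝ) (w u z : V) : Prop :=
  (∀ v, v ≠ u → v ≠ z → 0 < orient (f u) (f z) (f v)) ∧
    (∀ v, v ≠ u → v ≠ w → orient (f u) (f w) (f v) < 0)

/-- The set of the neighbours of `c` is the set of the vertices of a closed walk `v1 v2 v3 v4 v1` of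
`G` (so it is the vertex set of a 4-cycle, of a path with two edges, or of an edge), with not both of
`v1, v3` and not both of `v2, v4` in `U`. -/
def FourLink {V : Type} (G : SimpleGraph V) (U : Set V) (c : V) : Prop :=
  ∃ v1 v2 v3 v4 : V, G.neighborSet c = {v1, v2, v3, v4} ∧
    G.Adj v1 v2 ∧ G.Adj v2 v3 ∧ G.Adj v3 v4 ∧ G.Adj v4 v1 ∧
    ¬ (v1 ∈ U ∧ v3 ∈ U) ∧ ¬ (v2 ∈ U ∧ v4 ∈ U)

/-- Let `G` be a finite graph drawn in the plane with straight non-crossing edges, `w`, `u`, `z`
three different vertices which are consecutive corners of the convex hull of the drawing, and `C`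
an independent set of other vertices whose neighbourhoods are vertex sets of closed walks of length
four (no two opposite vertices of which are among `w`, `u`, `z`). If `G` becomes bipartite when
`w`, `u`, `z` and `C` are deleted, then the chromatic polynomial is strictly positive at every
real `q ≥ 9/2`. -/
theorem result (V : Type) [Fintype V] (G : SimpleGraph V) (f : V → ℝ × ℝ)
    (hf : StraightDrawing G f) (w u z : V) (hwu : w ≠ u) (hwz : w ≠ z) (huz : u ≠ z)
    (hull : HullTriple f w u z) (C : Set V) (hUC : Disjoint {w, u, z} C)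
    (hC : ∀ x ∈ C, ∀ y ∈ C, ¬ G.Adj x y) (hlink : ∀ c ∈ C, FourLink G {w, u, z} c)
    (hbip : (G.induce ({w, u, z} ∪ C)ᶜ).Colorable 2)
    (p : ℝ[X]) (hp : ∀ n : ℕ, p.eval (n : ℝ) = (Nat.card (G.Coloring (Fin n)) : ℝ))
    (q : ℝ) (hq : 9 / 2 ≤ q) : 0 < p.eval q := by
  classical
  obtain ⟨col⟩ := hbip
  set P : Fin 3 → ℝ × ℝ := ![f u, f z, f w] with hP
  set U : Fin 3 → V := ![u, z, w] with hU
  have hr : Set.range U = {w, u, z} := by
    ext x
    simp only [Set.mem_range, Set.mem_insert_iff, Set.mem_singleton_iff]
    constructor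
    · rintro ⟨i, rfl⟩
      fin_cases i
      · exact Or.inr (Or.inl rfl)
      · exact Or.inr (Or.inr rfl)
      · exact Or.inl rfl
    · rintro (rfl | rfl | rfl)
      · exact ⟨2, rfl⟩
      · exact ⟨0, rfl⟩
      · exact ⟨1, rfl⟩
  have h12 : 0 < Pool.Agent.H26.BL.crs (P 1 - P 0) (P 2 - P 0) := hull.1 w hwu hwz
  refine Pool.Agent.H26.BL.mainP (Pool.Agent.H26.BL.OB_open P) q (by linarith)
    (Pool.Agent.H26.BL.base_OB P h12 q hq) (V := V) (G := G) (f := f) (U := U) (C := C)
    (κ := fun x => if h : x ∈ ({w, u, z} ∪ C)ᶜ then decide (col ⟨x, h⟩ = 0) else false)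
    ⟨hf, ?_, ?_, ?_, hC, ?_, ?_⟩ p hp
  · intro i
    fin_cases i <;> rfl
  · rw [hr]
    intro v hv
    simp only [Set.mem_insert_iff, Set.mem_singleton_iff, not_or] at hv
    exact ⟨hull.1 v hv.2.1 hv.2.2, hull.2 v hv.2.1 hv.1⟩
  · rw [hr]
    intro v hv hv'
    exact Set.disjoint_left.1 hUC hv hv'
  · rw [hr]
    intro c hc
    obtain ⟨v1, v2, v3, v4, hN, h⟩ := hlink c hc
    refine ⟨v1, v2, v3, v4, ?_, h⟩
    intro x
    rw [← SimpleGraph.mem_neighborSet, hN]
    simp
  · rw [hr]
    intro x y hxy hxU hxC hyU hyC
    have hx : x ∈ ({w, u, z} ∪ C)ᶜ := fun e => e.elim hxU hxC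
    have hy : y ∈ ({w, u, z} ∪ C)ᶜ := fun e => e.elim hyU hyC
    simp only [dif_pos hx, dif_pos hy]
    intro hne
    have hadj : (G.induce ({w, u, z} ∪ C)ᶜ).Adj ⟨x, hx⟩ ⟨y, hy⟩ := by
      rw [SimpleGraph.comap_adj]
      exact hxy
    have h4 : col ⟨x, hx⟩ ≠ col ⟨y, hy⟩ := col.valid hadj
    have h5 : (col ⟨x, hx⟩ = 0) ↔ (col ⟨y, hy⟩ = 0) := decide_eq_decide.1 hne
    apply h4
    have h6 : ∀ x y : Fin 2, (x = 0 ↔ y = 0) → x = y := by decide
    exact h6 _ _ h5

end Pool.Agent.Results.MP_0d034c_co.ThreeHullVertices
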