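import Pool.Agent.H26.BL.Hub

/-!
The Birkhoff-Lewis inequality for plane graphs which become bipartite when two vertices are
deleted that are consecutive on the boundary of the convex hull of the drawing, and when moreover
an independent set of vertices is deleted whose neighbours form closed walks of length four.

Idea of the proof. The drawing is swept by rays from the first vertex, starting at the second one.
The state of the sweep is a vector of the Potts model in which the two special vertices have a
fixed colour, so only the vectors which are invariant under the permutations of the remaining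
colours matter. This space is a representation of the Temperley-Lieb algebra with a pinned strand;
for real `q ≥ 4` it has a path basis in which all the letters of the sweep act by matrices whose
signs are governed by the bipartition. Deleting the vertices with a closed walk of length four as
neighbourhood is possible as in the library module `TH592.BL.Main`.
-/

set_option autoImplicit false

namespace Pool.Agent.Results.MP_0d034c_co.TwoHullVertices

open Polynomial

/-- `f` is a drawing of `G` in the plane with straight non-crossing edges: vertices are distinct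
points, no vertex lies in the interior of an edge, and the interiors of different edges are
disjoint. -/
def StraightDrawing {V : Type} (G : SimpleGraph V) (f : V → ℝ × ℝ) : Prop :=
  Function.Injective f ∧
  (∀ u v w : V, G.Adj u v → f w ∉ openSegment ℝ (f u) (f v)) ∧
  (∀ u v u' v' : V, G.Adj u v → G.Adj u' v' → s(u, v) ≠ s(u', v') →
    Disjoint (openSegment ℝ (f u) (f v)) (openSegment ℝ (f u') (f v')))

/-- Twice the signed area of the triangle `a b c`; it is positive exactly when `c` lies strictly
to the left of the line from `a` to `b`. -/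
def orient (a b c : ℝ × ℝ) : ℝ := (b.1 - a.1) * (c.2 - a.2) - (b.2 - a.2) * (c.1 - a.1)

/-- All the vertices other than `u` and `z` lie strictly on one side of the line through the
points of `u` and `z`. -/
def HullPair {V : Type} (f : V → ℝ × ℝ) (u z : V) : Prop :=
  (∀ v, v ≠ u → v ≠ z → 0 < orient (f u) (f z) (f v)) ∨
    (∀ v, v ≠ u → v ≠ z → orient (f u) (f z) (f v) < 0)

/-- The set of the neighbours of `c` is the set of the vertices of a closed walk `v1 v2 v3 v4 v1` of
`G` (so it is the vertex set of a 4-cycle, of a path with two edges, or of an edge), with not both of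
`v1, v3` and not both of `v2, v4` in `U`. -/
def FourLink {V : Type} (G : SimpleGraph V) (U : Set V) (c : V) : Prop :=
  ∃ v1 v2 v3 v4 : V, G.neighborSet c = {v1, v2, v3, v4} ∧
    G.Adj v1 v2 ∧ G.Adj v2 v3 ∧ G.Adj v3 v4 ∧ G.Adj v4 v1 ∧
    ¬ (v1 ∈ U ∧ v3 ∈ U) ∧ ¬ (v2 ∈ U ∧ v4 ∈ U)

theorem aux (V : Type) [Fintype V] (G : SimpleGraph V) (f : V → ℝ × ℝ)
    (hf : StraightDrawing G f) (u z : V) (huz : u ≠ z)
    (hull : ∀ v, v ≠ u → v ≠ z → 0 < orient (f u) (f z) (f v)) (C : Set V)
    (hUC : Disjoint {u, z} C)
    (hC : ∀ x ∈ C, ∀ y ∈ C, ¬ G.Adj x y) (hlink : ∀ c ∈ C, FourLink G {u, z} c)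
    (hbip : (G.induce ({u, z} ∪ C)ᶜ).Colorable 2)
    (p : ℝ[X]) (hp : ∀ n : ℕ, p.eval (n : ℝ) = (Nat.card (G.Coloring (Fin n)) : ℝ))
    (q : ℝ) (hq : 4 < q) : 0 < p.eval q := by
  classical
  obtain ⟨col⟩ := hbip
  set P : Fin 3 → ℝ × ℝ := ![f u, f z, f u] with hP
  set U : Fin 3 → V := ![u, z, u] with hU
  have hr : Set.range U = {u, z} := by
    ext x
    simp only [Set.mem_range, Set.mem_insert_iff, Set.mem_singleton_iff]
    constructor
    · rintro ⟨i, rfl⟩
      fin_cases i
      · exact Or.inl rfl
      · exact Or.inr rfl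
      · exact Or.inl rfl
    · rintro (rfl | rfl)
      · exact ⟨0, rfl⟩
      · exact ⟨1, rfl⟩
  have hP1 : P 1 ≠ P 0 := fun e => huz (hf.1 e.symm)
  refine Pool.Agent.H26.BL.mainP (Pool.Agent.H26.BL.OA_open P) q hq
    (Pool.Agent.H26.BL.base_OA P hP1 rfl q hq.le) (V := V) (G := G) (f := f) (U := U) (C := C)
    (κ := fun x => if h : x ∈ ({u, z} ∪ C)ᶜ then decide (col ⟨x, h⟩ = 0) else false)
    ⟨hf, ?_, ?_, ?_, hC, ?_, ?_⟩ p hp
  · intro i
    fin_cases i <;> rfl
  · rw [hr]
    intro v hv
    simp only [Set.mem_insert_iff, Set.mem_singleton_iff, not_or] at hv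
    exact hull v hv.1 hv.2
  · rw [hr]
    intro v hv hv'
    exact Set.disjoint_left.1 hUC hv hv'
  · rw [hr]
    intro c hc
    obtain ⟨v1, v2, v3, v4, hN, h⟩ := hlink c hc
    refine ⟨v1, v2, v3, v4, ?_, h⟩
    intro x
    rw [← SimpleGraph.mem_neighborSet, hN]
    simp
  · rw [hr]
    intro x y hxy hxU hxC hyU hyC
    have hx : x ∈ ({u, z} ∪ C)ᶜ := fun e => e.elim hxU hxC
    have hy : y ∈ ({u, z} ∪ C)ᶜ := fun e => e.elim hyU hyC
    simp only [dif_pos hx, dif_pos hy]
    intro hne
    have hadj : (G.induce ({u, z} ∪ C)ᶜ).Adj ⟨x, hx⟩ ⟨y, hy⟩ := by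
      rw [SimpleGraph.comap_adj]
      exact hxy
    have h4 : col ⟨x, hx⟩ ≠ col ⟨y, hy⟩ := col.valid hadj
    have h5 : (col ⟨x, hx⟩ = 0) ↔ (col ⟨y, hy⟩ = 0) := decide_eq_decide.1 hne
    apply h4
    have h6 : ∀ x y : Fin 2, (x = 0 ↔ y = 0) → x = y := by decide
    exact h6 _ _ h5

/-- Let `G` be a finite graph drawn in the plane with straight non-crossing edges, `u ≠ z` two
vertices such that all the other vertices lie strictly on one side of the line through `u` and
`z`, and `C` an independent set of other vertices whose neighbourhoods are vertex sets of closed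
walks of length four (opposite vertices of which are not the two vertices `u` and `z`). If `G`
becomes bipartite when `u`, `z` and `C` are deleted, then the chromatic polynomial is strictly
positive at every real `q > 4`. -/
theorem result (V : Type) [Fintype V] (G : SimpleGraph V) (f : V → ℝ × ℝ)
    (hf : StraightDrawing G f) (u z : V) (huz : u ≠ z) (hull : HullPair f u z) (C : Set V)
    (hUC : Disjoint {u, z} C)
    (hC : ∀ x ∈ C, ∀ y ∈ C, ¬ G.Adj x y) (hlink : ∀ c ∈ C, FourLink G {u, z} c)
    (hbip : (G.induce ({u, z} ∪ C)ᶜ).Colorable 2)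
    (p : ℝ[X]) (hp : ∀ n : ℕ, p.eval (n : ℝ) = (Nat.card (G.Coloring (Fin n)) : ℝ))
    (q : ℝ) (hq : 4 < q) : 0 < p.eval q := by
  rcases hull with hull | hull
  · exact aux V G f hf u z huz hull C hUC hC hlink hbip p hp q hq
  · rw [Set.pair_comm] at hUC hbip
    rw [Set.pair_comm] at hlink
    refine aux V G f hf z u huz.symm ?_ C hUC hC hlink hbip p hp q hq
    intro v hvz hvu
    have h1 := hull v hvu hvz
    have h2 : orient (f z) (f u) (f v) = - orient (f u) (f z) (f v) := by
      unfold orient
      ring
    rw [h2]
    linarith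

end Pool.Agent.Results.MP_0d034c_co.TwoHullVertices
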